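import Pool.Agent.H.MP_4bcbbd_co.h39f.Defs
import Pool.Agent.H.MP_d546a0_lc.neg.GaussBasics

/-!
MP_4bcbbd_co: the Gaussian measure of this folder is the standard Gaussian measure of Mathlib.
-/

set_option autoImplicit false

namespace Pool.Agent.H.MP_4bcbbd_co.F

open MeasureTheory ProbabilityTheory
open scoped RealInnerProductSpace

theorem dens_eq (c : ℕ) (x : E c) : dens c x = D546neg.dens c x := by
  unfold dens D546neg.dens
  have hpi := Real.pi_pos
  have h1 : (2 * Real.pi) ^ (-(c : ℝ) / 2) = ((Real.pi / (1/2)) ^ ((c:ℝ) / 2))⁻¹ := by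
    rw [neg_div, Real.rpow_neg (by positivity), show Real.pi / (1/2) = 2 * Real.pi by ring]
  rw [h1, show -‖x‖ ^ 2 / 2 = -(1/2) * ‖x‖ ^ 2 by ring]

theorem gam_eq (c : ℕ) : gam c = stdGaussian (E c) := by
  have h := D546neg.gamma_eq (m := c)
  rw [gam]
  simp_rw [dens_eq]
  exact h.symm

end Pool.Agent.H.MP_4bcbbd_co.F
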