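import Pool.Agent.H.MP_4bcbbd_co.h30.GamEq

/-!
MP_4bcbbd_co, theorem F: polar coordinates for the standard Gaussian measure.
-/

set_option autoImplicit false

namespace Pool.Agent.H.MP_4bcbbd_co.F

open MeasureTheory ProbabilityTheory Set
open scoped RealInnerProductSpace

/-- radial integrals. -/
lemma gp_radial {c : ℕ} (hc : 1 ≤ c) (f : ℝ → ℝ) :
    ∫ x : E c, f ‖x‖ ∂(gam c) =
      (c * (volume : Measure (E c)).real (Metric.ball 0 1) * (2 * Real.pi) ^ (-(c : ℝ) / 2)) *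
        ∫ s in Ioi (0 : ℝ), s ^ (c - 1) * (f s * Real.exp (-s ^ 2 / 2)) := by
  have : Nonempty (Fin c) := ⟨⟨0, hc⟩⟩
  have : Nontrivial (E c) := by infer_instance
  have hd : Continuous (dens c) := by
    have : dens c = D546neg.dens c := funext (dens_eq c)
    rw [this]; exact D546neg.dens_continuous
  rw [gam, integral_withDensity_eq_integral_toReal_smul (hd.measurable.ennreal_ofReal)
    (Filter.Eventually.of_forall fun _ => ENNReal.ofReal_lt_top)]
  have h1 : ∀ x : E c, (ENNReal.ofReal (dens c x)).toReal • f ‖x‖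
      = (fun s : ℝ => (2 * Real.pi) ^ (-(c : ℝ) / 2) * (f s * Real.exp (-s ^ 2 / 2))) ‖x‖ := by
    intro x
    have h0 : 0 ≤ dens c x := by rw [dens_eq]; exact D546neg.dens_nonneg x
    rw [ENNReal.toReal_ofReal h0, smul_eq_mul, dens]
    ring
  simp_rw [h1]
  rw [integral_fun_norm_addHaar (volume : Measure (E c))
    (fun s : ℝ => (2 * Real.pi) ^ (-(c : ℝ) / 2) * (f s * Real.exp (-s ^ 2 / 2))),
    finrank_euclideanSpace_fin]
  simp only [smul_eq_mul, nsmul_eq_mul]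
  have h2 : ∀ s : ℝ, s ^ (c - 1) * ((2 * Real.pi) ^ (-(c : ℝ) / 2) * (f s * Real.exp (-s ^ 2 / 2)))
      = (2 * Real.pi) ^ (-(c : ℝ) / 2) * (s ^ (c - 1) * (f s * Real.exp (-s ^ 2 / 2))) := by
    intro s; ring
  simp_rw [h2]
  rw [integral_const_mul]
  ring

lemma gp_prob (c : ℕ) : IsProbabilityMeasure (gam c) := by
  rw [gam_eq]; infer_instance

/-- the normalisation. -/
lemma gp_norm {c : ℕ} (hc : 1 ≤ c) :
    (c * (volume : Measure (E c)).real (Metric.ball 0 1) * (2 * Real.pi) ^ (-(c : ℝ) / 2)) *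
        ∫ s in Ioi (0 : ℝ), s ^ (c - 1) * Real.exp (-s ^ 2 / 2) = 1 := by
  have h := gp_radial hc (fun _ => 1)
  have := gp_prob c
  simp only [integral_const, probReal_univ, smul_eq_mul, mul_one, one_mul] at h
  exact h.symm

lemma gp_gamma (a : ℕ) :
    ∫ s in Ioi (0 : ℝ), s ^ a * Real.exp (-s ^ 2 / 2)
      = 2 ^ (((a : ℝ) - 1) / 2) * Real.Gamma (((a : ℝ) + 1) / 2) := by
  have h := integral_rpow_mul_exp_neg_mul_rpow (p := 2) (q := a) (b := 1 / 2) two_pos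
    (by have : (0 : ℝ) ≤ a := by positivity
        linarith) (by norm_num)
  have h1 : ∀ s : ℝ, s ^ a * Real.exp (-s ^ 2 / 2)
      = s ^ (a : ℝ) * Real.exp (-(1 / 2) * s ^ (2 : ℝ)) := by
    intro s
    rw [Real.rpow_natCast, Real.rpow_two]
    congr 2
    ring
  simp_rw [h1]
  rw [h]
  congr 1
  rw [one_div, Real.inv_rpow two_pos.le, ← Real.rpow_neg two_pos.le,
    show (2⁻¹ : ℝ) = 2 ^ (-1 : ℝ) by rw [Real.rpow_neg_one], ← Real.rpow_add two_pos]
  congr 1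
  ring

/-- PROOF: polar coordinates. -/
theorem gam_ball_formula {c : ℕ} (hc : 1 ≤ c) {r : ℝ} (hr : 0 ≤ r) :
    (gam c (Metric.closedBall 0 r)).toReal =
      (∫ s in (0 : ℝ)..r, s ^ (c - 1) * Real.exp (-s ^ 2 / 2)) /
        ∫ s in Set.Ioi (0 : ℝ), s ^ (c - 1) * Real.exp (-s ^ 2 / 2) := by
  have hn := gp_norm hc
  have h := gp_radial hc (fun s => if s ≤ r then (1 : ℝ) else 0)
  have h1 : ∫ x : E c, (if ‖x‖ ≤ r then (1 : ℝ) else 0) ∂(gam c)
      = (gam c (Metric.closedBall 0 r)).toReal := by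
    have e : ∀ x : E c, (if ‖x‖ ≤ r then (1 : ℝ) else 0)
        = (Metric.closedBall (0 : E c) r).indicator (fun _ => (1 : ℝ)) x := by
      intro x
      by_cases hx : ‖x‖ ≤ r
      · rw [if_pos hx, Set.indicator_of_mem]; simpa using hx
      · rw [if_neg hx, Set.indicator_of_notMem]; simpa using hx
    simp_rw [e]
    rw [integral_indicator_const _ Metric.isClosed_closedBall.measurableSet, smul_eq_mul, mul_one]
    rfl
  have h2 : ∫ s in Ioi (0 : ℝ), s ^ (c - 1) * ((if s ≤ r then (1 : ℝ) else 0) *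
      Real.exp (-s ^ 2 / 2)) = ∫ s in (0 : ℝ)..r, s ^ (c - 1) * Real.exp (-s ^ 2 / 2) := by
    rw [intervalIntegral.integral_of_le hr]
    have e : ∀ s : ℝ, s ^ (c - 1) * ((if s ≤ r then (1 : ℝ) else 0) * Real.exp (-s ^ 2 / 2))
        = (Iic r).indicator (fun s => s ^ (c - 1) * Real.exp (-s ^ 2 / 2)) s := by
      intro s
      by_cases hs : s ≤ r
      · rw [if_pos hs, Set.indicator_of_mem (by exact hs)]; ring
      · rw [if_neg hs, Set.indicator_of_notMem (by exact hs)]; ring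
    simp_rw [e]
    rw [setIntegral_indicator measurableSet_Iic, Ioi_inter_Iic]
  rw [h1, h2] at h
  set I := ∫ s in Set.Ioi (0 : ℝ), s ^ (c - 1) * Real.exp (-s ^ 2 / 2) with hI
  have hI0 : I ≠ 0 := by
    intro h0
    rw [h0, mul_zero] at hn
    exact zero_ne_one hn
  rw [h, eq_div_iff hI0]
  linear_combination (∫ s in (0 : ℝ)..r, s ^ (c - 1) * Real.exp (-s ^ 2 / 2)) * hn

/-- PROOF: polar coordinates. -/
theorem kap_int_norm {c : ℕ} (hc : 1 ≤ c) :
    kap c * ∫ u : E c, ‖u‖ ∂(gam c) = Real.sqrt (2 / Real.pi) := by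
  have hc' : (1 : ℝ) ≤ c := by exact_mod_cast hc
  have hn := gp_norm hc
  have h := gp_radial hc (fun s => s)
  have h1 : ∫ s in Ioi (0 : ℝ), s ^ (c - 1) * (s * Real.exp (-s ^ 2 / 2))
      = ∫ s in Ioi (0 : ℝ), s ^ c * Real.exp (-s ^ 2 / 2) := by
    refine integral_congr_ae (Filter.Eventually.of_forall fun s => ?_)
    show s ^ (c - 1) * (s * Real.exp (-s ^ 2 / 2)) = s ^ c * Real.exp (-s ^ 2 / 2)
    rw [← mul_assoc, ← pow_succ, Nat.sub_add_cancel hc]
  rw [h1, gp_gamma] at h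
  rw [gp_gamma] at hn
  have e1 : (((c - 1 : ℕ) : ℝ) - 1) / 2 = (c : ℝ) / 2 - 1 := by
    rw [Nat.cast_sub hc]; push_cast; ring
  have e2 : (((c - 1 : ℕ) : ℝ) + 1) / 2 = (c : ℝ) / 2 := by
    rw [Nat.cast_sub hc]; push_cast; ring
  rw [e1, e2] at hn
  have g1 : 0 < Real.Gamma ((c : ℝ) / 2) := Real.Gamma_pos_of_pos (by linarith)
  have g2 : 0 < Real.Gamma (((c : ℝ) + 1) / 2) := Real.Gamma_pos_of_pos (by linarith)
  have p1 : (0 : ℝ) < 2 ^ ((c : ℝ) / 2 - 1) := Real.rpow_pos_of_pos two_pos _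
  have p2 : (2 : ℝ) ^ (((c : ℝ) - 1) / 2) = 2 ^ ((c : ℝ) / 2 - 1) * Real.sqrt 2 := by
    rw [Real.sqrt_eq_rpow, ← Real.rpow_add two_pos]
    congr 1
    ring
  have hpi : 0 < Real.sqrt Real.pi := Real.sqrt_pos.2 Real.pi_pos
  rw [h, p2, kap, Real.sqrt_div' _ Real.pi_pos.le]
  set K := c * (volume : Measure (E c)).real (Metric.ball 0 1) * (2 * Real.pi) ^ (-(c : ℝ) / 2)
  have hK : K = (2 ^ ((c : ℝ) / 2 - 1) * Real.Gamma ((c : ℝ) / 2))⁻¹ :=
    eq_inv_of_mul_eq_one_left hn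
  rw [hK]
  field_simp

end Pool.Agent.H.MP_4bcbbd_co.F
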