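import Pool.Agent.H.MP_d7d3dc_an.h17.HaarAvg
import Pool.Agent.H.MP_d7d3dc_an.h17.GB

/-!
MP_4bcbbd_co, theorem F: a sequence of isometries whose averages of `|⟪g u, w⟫|` and of
`⟪g u, w⟫ ^ 2` converge uniformly to the rotation means.
-/

set_option autoImplicit false

namespace H4bcRot

open D546neg D7u MeasureTheory ProbabilityTheory Set Filter
open scoped RealInnerProductSpace BigOperators ENNReal Topology

/-- the mean of `|⟪U, e⟫|` over the unit sphere of `ℝ^c`. -/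
noncomputable def kap (c : ℕ) : ℝ := √(2 / Real.pi) / ∫ z, ‖z‖ ∂(γ c)

lemma int_norm_pos (c : ℕ) (hc : 1 ≤ c) : 0 < ∫ z, ‖z‖ ∂(γ c) := by
  have hc' : (0 : ℝ) < c := by exact_mod_cast hc
  exact (Real.sqrt_pos.2 (by positivity)).trans_le le_int_norm

lemma kap_pos (c : ℕ) (hc : 1 ≤ c) : 0 < kap c :=
  div_pos (Real.sqrt_pos.2 (div_pos two_pos Real.pi_pos)) (int_norm_pos c hc)

section haar

variable {c : ℕ} {Ω : Type} [MeasurableSpace Ω] {μ : Measure Ω}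
    [IsProbabilityMeasure μ] {R : Ω → (E c ≃ₗᵢ[ℝ] E c)}

lemma meas_inner (hR : ∀ θ, Measurable fun ω => R ω θ) (u w : E c) :
    Measurable fun ω => ⟪R ω u, w⟫ := (hR u).inner_const

lemma haar_abs (hc : 1 ≤ c) (hR : ∀ θ, Measurable fun ω => R ω θ)
    (hav : ∀ θ : E c, ‖θ‖ = 1 → ∀ h : E c → ℝ≥0∞, Measurable h →
        ∫⁻ g, ∫⁻ ω, h (‖g‖ • R ω θ) ∂μ ∂(γ c) = ∫⁻ g, h g ∂(γ c))
    (θ w : E c) (hθ : ‖θ‖ = 1) : ∫ ω, |⟪R ω θ, w⟫| ∂μ = kap c * ‖w‖ := by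
  have hint : Integrable (fun ω => |⟪R ω θ, w⟫|) μ := by
    refine Integrable.of_bound (meas_inner hR θ w).abs.aestronglyMeasurable ‖w‖ ?_
    refine Eventually.of_forall fun ω => ?_
    rw [Real.norm_eq_abs, abs_abs]
    refine (abs_real_inner_le_norm _ _).trans ?_
    rw [(R ω).norm_map, hθ, one_mul]
  have h := hav θ hθ (fun g => ENNReal.ofReal |⟪g, w⟫|) (by fun_prop)
  have h1 : ∀ (g : E c) (ω : Ω), ENNReal.ofReal |⟪‖g‖ • R ω θ, w⟫|
      = ENNReal.ofReal ‖g‖ * ENNReal.ofReal |⟪R ω θ, w⟫| := by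
    intro g ω
    rw [real_inner_smul_left, abs_mul, abs_norm, ENNReal.ofReal_mul (norm_nonneg _)]
  simp_rw [h1] at h
  have h2 : ∀ g : E c, ∫⁻ ω, ENNReal.ofReal ‖g‖ * ENNReal.ofReal |⟪R ω θ, w⟫| ∂μ
      = ENNReal.ofReal ‖g‖ * ENNReal.ofReal (∫ ω, |⟪R ω θ, w⟫| ∂μ) := by
    intro g
    rw [lintegral_const_mul _ (meas_inner hR θ w).abs.ennreal_ofReal,
      ofReal_integral_eq_lintegral_ofReal hint (Eventually.of_forall fun _ => abs_nonneg _)]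
  simp_rw [h2] at h
  rw [lintegral_mul_const _ (by fun_prop), ← ofReal_integral_eq_lintegral_ofReal
    gb_integrable_norm (Eventually.of_forall fun _ => norm_nonneg _)] at h
  have hi2 : Integrable (fun g : E c => |⟪g, w⟫|) (γ c) := by
    have := (integrable_inner w (m := c)).abs
    simpa [real_inner_comm] using this
  rw [← ofReal_integral_eq_lintegral_ofReal hi2 (Eventually.of_forall fun _ => abs_nonneg _),
    ← ENNReal.ofReal_mul (int_norm_pos c hc).le] at h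
  have h3 : ∫ g, |⟪g, w⟫| ∂(γ c) = ‖w‖ * √(2 / Real.pi) := by
    rw [← gb_int_abs w]
    simp_rw [real_inner_comm]
  rw [h3] at h
  have h4 := (ENNReal.ofReal_eq_ofReal_iff (mul_nonneg (int_norm_pos c hc).le
    (integral_nonneg fun _ => abs_nonneg _)) (by positivity)).1 h
  have h5 := int_norm_pos c hc
  rw [kap]
  field_simp
  linarith

lemma haar_sq (hc : 1 ≤ c) (hR : ∀ θ, Measurable fun ω => R ω θ)
    (hav : ∀ θ : E c, ‖θ‖ = 1 → ∀ h : E c → ℝ≥0∞, Measurable h →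
        ∫⁻ g, ∫⁻ ω, h (‖g‖ • R ω θ) ∂μ ∂(γ c) = ∫⁻ g, h g ∂(γ c))
    (θ w : E c) (hθ : ‖θ‖ = 1) : ∫ ω, ⟪R ω θ, w⟫ ^ 2 ∂μ = ‖w‖ ^ 2 / c := by
  have hc' : (0 : ℝ) < c := by exact_mod_cast hc
  have hint : Integrable (fun ω => ⟪R ω θ, w⟫ ^ 2) μ := by
    refine Integrable.of_bound ((meas_inner hR θ w).pow_const 2).aestronglyMeasurable (‖w‖ ^ 2) ?_
    refine Eventually.of_forall fun ω => ?_
    rw [norm_pow, Real.norm_eq_abs]
    refine pow_le_pow_left₀ (abs_nonneg _) ((abs_real_inner_le_norm _ _).trans ?_) 2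
    rw [(R ω).norm_map, hθ, one_mul]
  have h := hav θ hθ (fun g => ENNReal.ofReal (⟪g, w⟫ ^ 2)) (by fun_prop)
  have h1 : ∀ (g : E c) (ω : Ω), ENNReal.ofReal (⟪‖g‖ • R ω θ, w⟫ ^ 2)
      = ENNReal.ofReal (‖g‖ ^ 2) * ENNReal.ofReal (⟪R ω θ, w⟫ ^ 2) := by
    intro g ω
    rw [real_inner_smul_left, mul_pow, ENNReal.ofReal_mul (by positivity)]
  simp_rw [h1] at h
  have h2 : ∀ g : E c, ∫⁻ ω, ENNReal.ofReal (‖g‖ ^ 2) * ENNReal.ofReal (⟪R ω θ, w⟫ ^ 2) ∂μ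
      = ENNReal.ofReal (‖g‖ ^ 2) * ENNReal.ofReal (∫ ω, ⟪R ω θ, w⟫ ^ 2 ∂μ) := by
    intro g
    rw [lintegral_const_mul _ ((meas_inner hR θ w).pow_const 2).ennreal_ofReal,
      ofReal_integral_eq_lintegral_ofReal hint (Eventually.of_forall fun _ => sq_nonneg _)]
  simp_rw [h2] at h
  rw [lintegral_mul_const _ (by fun_prop), ← ofReal_integral_eq_lintegral_ofReal
    gb_integrable_norm_sq (Eventually.of_forall fun _ => sq_nonneg _), gb_int_norm_sq] at h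
  have hi2 : Integrable (fun g : E c => ⟪g, w⟫ ^ 2) (γ c) := by
    have := gb_integrable_sq w
    simpa [real_inner_comm] using this
  rw [← ofReal_integral_eq_lintegral_ofReal hi2 (Eventually.of_forall fun _ => sq_nonneg _),
    ← ENNReal.ofReal_mul hc'.le] at h
  have h3 : ∫ g, ⟪g, w⟫ ^ 2 ∂(γ c) = ‖w‖ ^ 2 := by
    rw [← gb_int_sq w]
    simp_rw [real_inner_comm]
  rw [h3] at h
  have h4 := (ENNReal.ofReal_eq_ofReal_iff (mul_nonneg hc'.le
    (integral_nonneg fun _ => sq_nonneg _)) (by positivity)).1 h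
  field_simp
  linarith

end haar

/-- simultaneous strong law for countably many functions. -/
lemma slln {Ω : Type} [MeasurableSpace Ω] (μ : Measure Ω) [IsProbabilityMeasure μ]
    {ι : Type} [Countable ι] (f : ι → Ω → ℝ) (hf : ∀ j, Measurable (f j))
    (hi : ∀ j, Integrable (f j) μ) :
    ∃ ω : ℕ → Ω, ∀ j, Tendsto (fun n : ℕ => (∑ i ∈ Finset.range n, f j (ω i)) / n) atTop
      (𝓝 (∫ x, f j x ∂μ)) := by
  let P : Measure (ℕ → Ω) := Measure.infinitePi fun _ => μ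
  have hmp : ∀ i, MeasurePreserving (fun ω : ℕ → Ω => ω i) P μ := fun i =>
    measurePreserving_eval_infinitePi (fun _ => μ) i
  have key : ∀ j, ∀ᵐ ω ∂P, Tendsto (fun n : ℕ => (∑ i ∈ Finset.range n, f j (ω i)) / n) atTop
      (𝓝 (∫ x, f j x ∂μ)) := by
    intro j
    have h1 : iIndepFun (fun (i : ℕ) (ω : ℕ → Ω) => f j (ω i)) P :=
      iIndepFun_infinitePi (P := fun _ : ℕ => μ) (X := fun _ => f j) (fun _ => hf j)
    have h2 : ∀ i, IdentDistrib (fun ω : ℕ → Ω => f j (ω i)) (fun ω : ℕ → Ω => f j (ω 0)) P P := by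
      intro i
      refine ⟨((hf j).comp (measurable_pi_apply i)).aemeasurable,
        ((hf j).comp (measurable_pi_apply 0)).aemeasurable, ?_⟩
      have e : ∀ i, P.map (fun ω : ℕ → Ω => f j (ω i)) = μ.map (f j) := by
        intro i
        have := Measure.map_map (μ := P) (hf j) (measurable_pi_apply (X := fun _ : ℕ => Ω) i)
        rw [show (fun ω : ℕ → Ω => f j (ω i)) = f j ∘ (fun ω => ω i) from rfl, ← this,
          (hmp i).map_eq]
      rw [e, e]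
    have h3 : Integrable (fun ω : ℕ → Ω => f j (ω 0)) P :=
      (hmp 0).integrable_comp_of_integrable (hi j)
    have h4 := strong_law_ae_real (μ := P) (fun (i : ℕ) (ω : ℕ → Ω) => f j (ω i)) h3
      (fun a b hab => h1.indepFun hab) h2
    have h5 : ∫ ω : ℕ → Ω, f j (ω 0) ∂P = ∫ x, f j x ∂μ := by
      rw [← (hmp 0).map_eq, integral_map (measurable_pi_apply 0).aemeasurable
        (hf j).aestronglyMeasurable]
    rw [h5] at h4
    exact h4
  obtain ⟨ω, hω⟩ := (ae_all_iff.2 key).exists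
  exact ⟨ω, hω⟩

/-- pointwise convergence on a dense set and equi-Lipschitz bounds give uniform convergence on
the product of the unit spheres. -/
lemma unif {c : ℕ} (D : Set (E c)) (hD : Dense D) (F : ℕ → E c → E c → ℝ) (G : E c → E c → ℝ)
    (L : ℝ) (hL : 0 < L)
    (hF : ∀ n, ∀ u w u' w' : E c, ‖u‖ ≤ 2 → ‖w‖ ≤ 2 → ‖u'‖ ≤ 2 → ‖w'‖ ≤ 2 →
      |F n u w - F n u' w'| ≤ L * (‖u - u'‖ + ‖w - w'‖))
    (hG : ∀ u w u' w' : E c, ‖u‖ ≤ 2 → ‖w‖ ≤ 2 → ‖u'‖ ≤ 2 → ‖w'‖ ≤ 2 →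
      |G u w - G u' w'| ≤ L * (‖u - u'‖ + ‖w - w'‖))
    (hlim : ∀ u ∈ D, ∀ w ∈ D, Tendsto (fun n => F n u w) atTop (𝓝 (G u w)))
    (ε : ℝ) (hε : 0 < ε) :
    ∃ N : ℕ, ∀ n ≥ N, ∀ u w : E c, ‖u‖ = 1 → ‖w‖ = 1 → |F n u w - G u w| ≤ ε := by
  obtain ⟨δ, hδ, hδ1, hδ2⟩ : ∃ δ : ℝ, 0 < δ ∧ δ ≤ 1 ∧ 4 * L * δ ≤ ε / 2 := by
    refine ⟨min 1 (ε / (8 * L)), by positivity, min_le_left _ _, ?_⟩
    have h := min_le_right 1 (ε / (8 * L))
    have h2 : 4 * L * min 1 (ε / (8 * L)) ≤ 4 * L * (ε / (8 * L)) :=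
      mul_le_mul_of_nonneg_left h (by positivity)
    refine h2.trans (le_of_eq ?_)
    field_simp
    norm_num
  have hcomp : IsCompact (Metric.sphere (0 : E c) 1) := isCompact_sphere _ _
  have hcov : Metric.sphere (0 : E c) 1 ⊆ ⋃ d : D, Metric.ball (d : E c) δ := by
    intro x _
    obtain ⟨d, hd, hd2⟩ := Metric.mem_closure_iff.1 (hD x) δ hδ
    exact mem_iUnion.2 ⟨⟨d, hd⟩, by rw [Metric.mem_ball]; exact hd2⟩
  obtain ⟨T, hT⟩ := hcomp.elim_finite_subcover (fun d : D => Metric.ball (d : E c) δ)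
    (fun _ => Metric.isOpen_ball) hcov
  have hN : ∀ᶠ n in atTop, ∀ p ∈ T ×ˢ T, |F n (p.1 : E c) (p.2 : E c) - G p.1 p.2| < ε / 2 := by
    rw [Filter.eventually_all_finset]
    intro p _
    have := hlim p.1 p.1.2 p.2 p.2.2
    have h2 := (tendsto_order.1 (tendsto_iff_norm_sub_tendsto_zero.1 this)).2 (ε / 2) (by positivity)
    filter_upwards [h2] with n hn
    simpa [Real.norm_eq_abs] using hn
  obtain ⟨N, hN⟩ := eventually_atTop.1 hN
  refine ⟨N, fun n hn u w hu hw => ?_⟩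
  have huS : u ∈ Metric.sphere (0 : E c) 1 := by simp [hu]
  have hwS : w ∈ Metric.sphere (0 : E c) 1 := by simp [hw]
  obtain ⟨a, ha, hua⟩ : ∃ a ∈ T, u ∈ Metric.ball (a : E c) δ := by
    simpa using hT huS
  obtain ⟨b, hb, hwb⟩ : ∃ b ∈ T, w ∈ Metric.ball (b : E c) δ := by
    simpa using hT hwS
  rw [Metric.mem_ball, dist_eq_norm] at hua hwb
  have ha2 : ‖(a : E c)‖ ≤ 2 := by
    have : (a : E c) = u - (u - a) := by abel
    rw [this]
    refine (norm_sub_le _ _).trans ?_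
    linarith
  have hb2 : ‖(b : E c)‖ ≤ 2 := by
    have : (b : E c) = w - (w - b) := by abel
    rw [this]
    refine (norm_sub_le _ _).trans ?_
    linarith
  have e1 := hF n u w a b (by linarith) (by linarith) ha2 hb2
  have e2 := hG u w a b (by linarith) (by linarith) ha2 hb2
  have e3 := hN n hn (a, b) (Finset.mk_mem_product ha hb)
  simp only at e3
  have e4 : L * (‖u - a‖ + ‖w - b‖) ≤ 2 * L * δ := by nlinarith
  rw [abs_le] at e1 e2 ⊢
  rw [abs_lt] at e3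
  constructor <;> nlinarith [e1.1, e1.2, e2.1, e2.2, e3.1, e3.2]

lemma avg_lip (n : ℕ) (a b : ℕ → ℝ) (B : ℝ) (hB : 0 ≤ B) (h : ∀ k, |a k - b k| ≤ B) :
    |(∑ k ∈ Finset.range n, a k) / n - (∑ k ∈ Finset.range n, b k) / n| ≤ B := by
  rcases Nat.eq_zero_or_pos n with rfl | hn
  · simpa using hB
  · have hn' : (0 : ℝ) < n := by exact_mod_cast hn
    rw [← sub_div, ← Finset.sum_sub_distrib, abs_div, abs_of_pos hn', div_le_iff₀ hn']
    calc |∑ k ∈ Finset.range n, (a k - b k)| ≤ ∑ k ∈ Finset.range n, |a k - b k| :=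
          Finset.abs_sum_le_sum_abs _ _
      _ ≤ ∑ _k ∈ Finset.range n, B := Finset.sum_le_sum fun k _ => h k
      _ = B * n := by rw [Finset.sum_const, Finset.card_range, nsmul_eq_mul, mul_comm]

lemma inner_lip {c : ℕ} (S : E c ≃ₗᵢ[ℝ] E c) (u w u' w' : E c) (hw : ‖w‖ ≤ 2)
    (hu' : ‖u'‖ ≤ 2) : |⟪S u, w⟫ - ⟪S u', w'⟫| ≤ 2 * (‖u - u'‖ + ‖w - w'‖) := by
  have e : ⟪S u, w⟫ - ⟪S u', w'⟫ = ⟪S (u - u'), w⟫ + ⟪S u', w - w'⟫ := by
    rw [map_sub, inner_sub_left, inner_sub_right]; ring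
  rw [e]
  refine (abs_add_le _ _).trans ?_
  have h1 := abs_real_inner_le_norm (S (u - u')) w
  have h2 := abs_real_inner_le_norm (S u') (w - w')
  rw [S.norm_map] at h1 h2
  have h3 := norm_nonneg (u - u')
  have h4 := norm_nonneg (w - w')
  nlinarith

lemma abs_inner_le {c : ℕ} (S : E c ≃ₗᵢ[ℝ] E c) (u w : E c) : |⟪S u, w⟫| ≤ ‖u‖ * ‖w‖ := by
  have h1 := abs_real_inner_le_norm (S u) w
  rwa [S.norm_map] at h1

lemma norm_mul_lip {c : ℕ} (u w u' w' : E c) (hw : ‖w‖ ≤ 2)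
    (hu' : ‖u'‖ ≤ 2) : |‖u‖ * ‖w‖ - ‖u'‖ * ‖w'‖| ≤ 2 * (‖u - u'‖ + ‖w - w'‖) := by
  have e : ‖u‖ * ‖w‖ - ‖u'‖ * ‖w'‖ = (‖u‖ - ‖u'‖) * ‖w‖ + ‖u'‖ * (‖w‖ - ‖w'‖) := by ring
  rw [e]
  refine (abs_add_le _ _).trans ?_
  rw [abs_mul, abs_mul, abs_norm, abs_norm]
  have h1 := abs_norm_sub_norm_le u u'
  have h2 := abs_norm_sub_norm_le w w'
  have h3 := norm_nonneg (u - u')
  have h4 := norm_nonneg (w - w')
  have h5 := norm_nonneg w
  have h6 := norm_nonneg u'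
  nlinarith [abs_nonneg (‖u‖ - ‖u'‖), abs_nonneg (‖w‖ - ‖w'‖)]

lemma sq_lip (a b B : ℝ) (ha : |a| ≤ 4) (hb : |b| ≤ 4) (h : |a - b| ≤ B) :
    |a ^ 2 - b ^ 2| ≤ 8 * B := by
  have e : a ^ 2 - b ^ 2 = (a - b) * (a + b) := by ring
  rw [e, abs_mul]
  have h1 : |a + b| ≤ 8 := (abs_add_le _ _).trans (by linarith)
  have h2 := abs_nonneg (a - b)
  have h3 := abs_nonneg (a + b)
  nlinarith

/-- ROT: a sequence of isometries whose averages of `|⟪g u, w⟫|` and `⟪g u, w⟫ ^ 2` are uniformly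
close to the rotation means. -/
theorem rot_seq (c : ℕ) (hc : 1 ≤ c) : ∃ g : ℕ → (E c ≃ₗᵢ[ℝ] E c), ∀ ε > 0, ∃ N : ℕ, ∀ n ≥ N,
    (∀ u w : E c, |(∑ k ∈ Finset.range n, |⟪g k u, w⟫|) / n - kap c * (‖u‖ * ‖w‖)|
      ≤ ε * (‖u‖ * ‖w‖)) ∧
    (∀ u w : E c, |(∑ k ∈ Finset.range n, ⟪g k u, w⟫ ^ 2) / n - ‖u‖ ^ 2 * ‖w‖ ^ 2 / c|
      ≤ ε * (‖u‖ ^ 2 * ‖w‖ ^ 2)) := by
  have hc' : (0 : ℝ) < c := by exact_mod_cast hc
  have hc1 : (1 : ℝ) ≤ c := by exact_mod_cast hc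
  obtain ⟨Ω, mΩ, μ, hμ, R, hR, hav⟩ := haar_avg c hc
  -- the rotation means for all pairs
  have m1 : ∀ u w : E c, ∫ ω, |⟪R ω u, w⟫| ∂μ = kap c * (‖u‖ * ‖w‖) := by
    intro u w
    by_cases h0 : u = 0
    · subst h0; simp
    have hn : ‖u‖ ≠ 0 := norm_ne_zero_iff.2 h0
    have hu : u = ‖u‖ • (‖u‖⁻¹ • u) := by rw [smul_smul, mul_inv_cancel₀ hn, one_smul]
    have h1 : ‖‖u‖⁻¹ • u‖ = 1 := by rw [norm_smul, norm_inv, norm_norm, inv_mul_cancel₀ hn]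
    have h2 : ∀ ω, |⟪R ω u, w⟫| = ‖u‖ * |⟪R ω (‖u‖⁻¹ • u), w⟫| := by
      intro ω
      conv_lhs => rw [hu]
      rw [map_smul, real_inner_smul_left, abs_mul, abs_norm]
    simp_rw [h2]
    rw [integral_const_mul, haar_abs hc hR hav _ w h1]
    ring
  have m2 : ∀ u w : E c, ∫ ω, ⟪R ω u, w⟫ ^ 2 ∂μ = ‖u‖ ^ 2 * ‖w‖ ^ 2 / c := by
    intro u w
    by_cases h0 : u = 0
    · subst h0; simp
    have hn : ‖u‖ ≠ 0 := norm_ne_zero_iff.2 h0
    have hu : u = ‖u‖ • (‖u‖⁻¹ • u) := by rw [smul_smul, mul_inv_cancel₀ hn, one_smul]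
    have h1 : ‖‖u‖⁻¹ • u‖ = 1 := by rw [norm_smul, norm_inv, norm_norm, inv_mul_cancel₀ hn]
    have h2 : ∀ ω, ⟪R ω u, w⟫ ^ 2 = ‖u‖ ^ 2 * ⟪R ω (‖u‖⁻¹ • u), w⟫ ^ 2 := by
      intro ω
      conv_lhs => rw [hu]
      rw [map_smul, real_inner_smul_left, mul_pow]
    simp_rw [h2]
    rw [integral_const_mul, haar_sq hc hR hav _ w h1]
    ring
  -- the countable dense set
  obtain ⟨D, hDc, hD⟩ := TopologicalSpace.exists_countable_dense (E c)
  have : Countable D := hDc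
  let f : (D × D) × Bool → Ω → ℝ := fun p ω =>
    if p.2 then |⟪R ω (p.1.1 : E c), (p.1.2 : E c)⟫| else ⟪R ω (p.1.1 : E c), (p.1.2 : E c)⟫ ^ 2
  have hf : ∀ p, Measurable (f p) := by
    rintro ⟨⟨u, w⟩, b⟩
    cases b
    · exact (meas_inner hR u w).pow_const 2
    · exact (meas_inner hR u w).abs
  have hi : ∀ p, Integrable (f p) μ := by
    rintro ⟨⟨u, w⟩, b⟩
    cases b
    · refine Integrable.of_bound (hf ((u, w), false)).aestronglyMeasurable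
        ((‖(u : E c)‖ * ‖(w : E c)‖) ^ 2) (Eventually.of_forall fun ω => ?_)
      simp only [f, Bool.false_eq_true, if_false]
      rw [norm_pow, Real.norm_eq_abs]
      exact pow_le_pow_left₀ (abs_nonneg _) (abs_inner_le _ _ _) 2
    · refine Integrable.of_bound (hf ((u, w), true)).aestronglyMeasurable
        (‖(u : E c)‖ * ‖(w : E c)‖) (Eventually.of_forall fun ω => ?_)
      simp only [f, if_true]
      rw [Real.norm_eq_abs, abs_abs]
      exact abs_inner_le _ _ _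
  obtain ⟨ω, hω⟩ := slln μ f hf hi
  refine ⟨fun k => R (ω k), fun ε hε => ?_⟩
  have hκ := kap_pos c hc
  obtain ⟨N1, hN1⟩ := unif D hD
    (fun n u w => (∑ k ∈ Finset.range n, |⟪R (ω k) u, w⟫|) / n)
    (fun u w => kap c * (‖u‖ * ‖w‖)) (2 * (1 + kap c)) (by positivity)
    (by
      intro n u w u' w' hu hw hu' hw'
      have h3 := norm_nonneg (u - u')
      have h4 := norm_nonneg (w - w')
      refine (avg_lip n _ _ (2 * (‖u - u'‖ + ‖w - w'‖)) (by positivity) fun k => ?_).trans ?_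
      · exact (abs_abs_sub_abs_le_abs_sub _ _).trans (inner_lip _ _ _ _ _ hw hu')
      · nlinarith [mul_nonneg hκ.le (add_nonneg h3 h4)])
    (by
      intro u w u' w' hu hw hu' hw'
      have h3 := norm_nonneg (u - u')
      have h4 := norm_nonneg (w - w')
      rw [← mul_sub, abs_mul, abs_of_pos hκ]
      have := norm_mul_lip u w u' w' hw hu'
      nlinarith [mul_nonneg hκ.le (add_nonneg h3 h4)])
    (by
      intro u hu w hw
      have := hω ((⟨u, hu⟩, ⟨w, hw⟩), true)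
      simp only [f, if_true] at this
      rw [m1] at this
      exact this) ε hε
  obtain ⟨N2, hN2⟩ := unif D hD
    (fun n u w => (∑ k ∈ Finset.range n, ⟪R (ω k) u, w⟫ ^ 2) / n)
    (fun u w => ‖u‖ ^ 2 * ‖w‖ ^ 2 / c) 16 (by positivity)
    (by
      intro n u w u' w' hu hw hu' hw'
      have h3 := norm_nonneg (u - u')
      have h4 := norm_nonneg (w - w')
      refine (avg_lip n _ _ (16 * (‖u - u'‖ + ‖w - w'‖)) (by positivity) fun k => ?_)
      refine (sq_lip _ _ (2 * (‖u - u'‖ + ‖w - w'‖)) ?_ ?_ (inner_lip _ _ _ _ _ hw hu')).trans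
        (le_of_eq (by ring))
      · exact (abs_inner_le _ _ _).trans (by nlinarith [norm_nonneg u, norm_nonneg w])
      · exact (abs_inner_le _ _ _).trans (by nlinarith [norm_nonneg u', norm_nonneg w']))
    (by
      intro u w u' w' hu hw hu' hw'
      have h3 := norm_nonneg (u - u')
      have h4 := norm_nonneg (w - w')
      have e : ‖u‖ ^ 2 * ‖w‖ ^ 2 / c - ‖u'‖ ^ 2 * ‖w'‖ ^ 2 / c
        = ((‖u‖ * ‖w‖) ^ 2 - (‖u'‖ * ‖w'‖) ^ 2) / c := by ring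
      rw [e, abs_div, abs_of_pos hc']
      refine (div_le_self (abs_nonneg _) hc1).trans ?_
      refine (sq_lip _ _ (2 * (‖u - u'‖ + ‖w - w'‖)) ?_ ?_ (norm_mul_lip _ _ _ _ hw hu')).trans
        (le_of_eq (by ring))
      · rw [abs_of_nonneg (by positivity)]; nlinarith [norm_nonneg u, norm_nonneg w]
      · rw [abs_of_nonneg (by positivity)]; nlinarith [norm_nonneg u', norm_nonneg w'])
    (by
      intro u hu w hw
      have := hω ((⟨u, hu⟩, ⟨w, hw⟩), false)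
      simp only [f, Bool.false_eq_true, if_false] at this
      rw [m2] at this
      exact this) ε hε
  refine ⟨max N1 N2, fun n hn => ⟨fun u w => ?_, fun u w => ?_⟩⟩
  · by_cases hu : u = 0
    · subst hu; simp
    by_cases hw : w = 0
    · subst hw; simp
    have hnu : ‖u‖ ≠ 0 := norm_ne_zero_iff.2 hu
    have hnw : ‖w‖ ≠ 0 := norm_ne_zero_iff.2 hw
    have h := hN1 n ((le_max_left _ _).trans hn) (‖u‖⁻¹ • u) (‖w‖⁻¹ • w)
      (by rw [norm_smul, norm_inv, norm_norm, inv_mul_cancel₀ hnu])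
      (by rw [norm_smul, norm_inv, norm_norm, inv_mul_cancel₀ hnw])
    have e : ∀ k, |⟪R (ω k) (‖u‖⁻¹ • u), ‖w‖⁻¹ • w⟫| = (‖u‖ * ‖w‖)⁻¹ * |⟪R (ω k) u, w⟫| := by
      intro k
      rw [map_smul, real_inner_smul_left, real_inner_smul_right, abs_mul, abs_mul, abs_inv,
        abs_inv, abs_norm, abs_norm, mul_inv]
      ring
    simp_rw [e] at h
    rw [← Finset.mul_sum, norm_smul, norm_smul, norm_inv, norm_norm, norm_inv, norm_norm,
      inv_mul_cancel₀ hnu, inv_mul_cancel₀ hnw] at h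
    have hp : 0 < ‖u‖ * ‖w‖ := mul_pos (norm_pos_iff.2 hu) (norm_pos_iff.2 hw)
    have e2 : (∑ k ∈ Finset.range n, |⟪R (ω k) u, w⟫|) / n - kap c * (‖u‖ * ‖w‖)
        = (‖u‖ * ‖w‖) * ((‖u‖ * ‖w‖)⁻¹ * (∑ k ∈ Finset.range n, |⟪R (ω k) u, w⟫|) / n
          - kap c * (1 * 1)) := by
      field_simp
    rw [e2, abs_mul, abs_of_pos hp, mul_comm]
    exact mul_le_mul_of_nonneg_right h hp.le
  · by_cases hu : u = 0
    · subst hu; simp
    by_cases hw : w = 0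
    · subst hw; simp
    have hnu : ‖u‖ ≠ 0 := norm_ne_zero_iff.2 hu
    have hnw : ‖w‖ ≠ 0 := norm_ne_zero_iff.2 hw
    have h := hN2 n ((le_max_right _ _).trans hn) (‖u‖⁻¹ • u) (‖w‖⁻¹ • w)
      (by rw [norm_smul, norm_inv, norm_norm, inv_mul_cancel₀ hnu])
      (by rw [norm_smul, norm_inv, norm_norm, inv_mul_cancel₀ hnw])
    have e : ∀ k, ⟪R (ω k) (‖u‖⁻¹ • u), ‖w‖⁻¹ • w⟫ ^ 2
        = (‖u‖ ^ 2 * ‖w‖ ^ 2)⁻¹ * ⟪R (ω k) u, w⟫ ^ 2 := by
      intro k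
      rw [map_smul, real_inner_smul_left, real_inner_smul_right]
      field_simp
    simp_rw [e] at h
    rw [← Finset.mul_sum, norm_smul, norm_smul, norm_inv, norm_norm, norm_inv, norm_norm,
      inv_mul_cancel₀ hnu, inv_mul_cancel₀ hnw] at h
    have hp : 0 < ‖u‖ ^ 2 * ‖w‖ ^ 2 :=
      mul_pos (pow_pos (norm_pos_iff.2 hu) 2) (pow_pos (norm_pos_iff.2 hw) 2)
    have e2 : (∑ k ∈ Finset.range n, ⟪R (ω k) u, w⟫ ^ 2) / n - ‖u‖ ^ 2 * ‖w‖ ^ 2 / c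
        = (‖u‖ ^ 2 * ‖w‖ ^ 2) * ((‖u‖ ^ 2 * ‖w‖ ^ 2)⁻¹ *
          (∑ k ∈ Finset.range n, ⟪R (ω k) u, w⟫ ^ 2) / n - 1 ^ 2 * 1 ^ 2 / c) := by
      field_simp
      try ring
    rw [e2, abs_mul, abs_of_pos hp, mul_comm]
    exact mul_le_mul_of_nonneg_right h hp.le

end H4bcRot
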