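import Pool.Agent.H.MP_4bcbbd_co.h30.GauPolar

/-!
MP_4bcbbd_co, theorem F: the limit shape for two extra pairs of vertices.
-/

set_option autoImplicit false

namespace Pool.Agent.H.MP_4bcbbd_co.F

open MeasureTheory Set

theorem kap_two : kap 2 = 2 / Real.pi := by
  have hpi : 0 < Real.sqrt Real.pi := Real.sqrt_pos.2 Real.pi_pos
  have h3 : Real.Gamma (((2 : ℕ) : ℝ) / 2) = 1 := by
    rw [show (((2 : ℕ) : ℝ) / 2) = 1 by norm_num, Real.Gamma_one]
  have h4 : Real.Gamma ((((2 : ℕ) : ℝ) + 1) / 2) = Real.sqrt Real.pi / 2 := by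
    rw [show ((((2 : ℕ) : ℝ) + 1) / 2) = 1 / 2 + 1 by norm_num,
      Real.Gamma_add_one (by norm_num), Real.Gamma_one_half_eq]
    ring
  rw [kap, h3, h4]
  have h5 : Real.sqrt Real.pi * (Real.sqrt Real.pi / 2) = Real.pi / 2 := by
    rw [← mul_div_assoc, Real.mul_self_sqrt Real.pi_pos.le]
  rw [h5, one_div_div]

theorem kap_one : kap 1 = 1 := by
  have hpi : 0 < Real.sqrt Real.pi := Real.sqrt_pos.2 Real.pi_pos
  rw [kap, show (((1 : ℕ) : ℝ) / 2) = 1 / 2 by norm_num,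
    show ((((1 : ℕ) : ℝ) + 1) / 2) = 1 by norm_num, Real.Gamma_one, Real.Gamma_one_half_eq, mul_one,
    div_self hpi.ne']

theorem rho_one : rho 1 = 1 := by
  rw [rho, kap_one]
  simp

theorem rho_two : rho 2 = Real.sqrt 8 / Real.pi := by
  rw [rho, kap_two]
  have h : Real.sqrt 8 = Real.sqrt ((2 : ℕ) : ℝ) * 2 := by
    rw [show (8 : ℝ) = ((2 : ℕ) : ℝ) * 2 ^ 2 by norm_num, Real.sqrt_mul (by positivity),
      Real.sqrt_sq two_pos.le]
  rw [h]
  ring

theorem psi_two {x : ℝ} (hx : 0 ≤ x) : psi 2 x = 1 - Real.exp (-4 * x ^ 2 / Real.pi ^ 2) := by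
  have hr : 0 ≤ rho 2 * x := mul_nonneg (by rw [rho_two]; positivity) hx
  rw [psi, gam_ball_formula (by norm_num) hr]
  have h1 : ∫ s in Ioi (0 : ℝ), s ^ (2 - 1) * Real.exp (-s ^ 2 / 2) = 1 := by
    rw [gp_gamma]
    norm_num
  have h2 : ∀ r : ℝ, ∫ s in (0 : ℝ)..r, s ^ (2 - 1) * Real.exp (-s ^ 2 / 2)
      = 1 - Real.exp (-r ^ 2 / 2) := by
    intro r
    have hd : ∀ s ∈ uIcc (0 : ℝ) r, HasDerivAt (fun s => -Real.exp (-s ^ 2 / 2))
        (s ^ (2 - 1) * Real.exp (-s ^ 2 / 2)) s := by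
      intro s _
      have e1 : HasDerivAt (fun s : ℝ => -s ^ 2 / 2) (-s) s := by
        have := ((hasDerivAt_pow 2 s).neg).div_const 2
        refine this.congr_deriv ?_
        norm_num
        ring
      have e2 := e1.exp.neg
      refine e2.congr_deriv ?_
      norm_num
      ring
    rw [intervalIntegral.integral_eq_sub_of_hasDerivAt hd
      (Continuous.intervalIntegrable (by fun_prop) _ _)]
    norm_num
    ring
  rw [h1, h2, div_one, rho_two]
  congr 2
  rw [mul_pow, div_pow, Real.sq_sqrt (by norm_num)]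
  ring

end Pool.Agent.H.MP_4bcbbd_co.F
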